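import Pool.Agent.H251R6.SDD.Final

/-!
# Periodic subvarieties of small dynamical degree of every period through a rational fixed point

Over every field `K` of characteristic zero there are a projective variety `X`, a surjective
endomorphism `f` of `X`, both defined over `K`, with first dynamical degree `3 > 1`, and one
`K`-rational fixed point `x₀` of `f` such that for every `N ≥ 1` some `f`-periodic subvariety of
small dynamical degree through `x₀` has period exactly `N`.

The example is the one of the library file `Pool.Agent.H251R6.SDD.Final`: `X = ℙ¹ × ℙ¹ × ℙ¹` (in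
`ℙ⁷` by the Segre embedding), `f = (u³, z², w²)`, and `Y = {∞} × {w = l z}` with `l` a primitive
root of unity of order `2 ^ N - 1`; for `N = 1` this is `l = 1`.
-/

namespace Pool.Agent.Results.MP_3de96c_nt.EveryPeriod

open Pool.Agent.H251R6.SDD

/-- In the example there are subvarieties of every period. -/
lemma exists_period {k : Type} [Field k] [CharZero k] [IsAlgClosed k] (N : ℕ) (hN0 : 1 ≤ N) :
    ∃ Y ⊆ XX k, IsZariskiClosed Y ∧ IsIrred Y ∧ IsPeriodic ff Y ∧
      IsSDD (XX k) ff Y ∧ period ff Y = N ∧ pt0 k ∈ Y := by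
  have : Infinite k := inferInstance
  have hm : 0 < 2 ^ N - 1 := by
    have : 2 ^ 1 ≤ 2 ^ N := Nat.pow_le_pow_right two_pos hN0
    omega
  have : NeZero (2 ^ N - 1) := ⟨hm.ne'⟩
  have : NeZero ((2 ^ N - 1 : ℕ) : k) := ⟨by exact_mod_cast hm.ne'⟩
  obtain ⟨l, hprim⟩ := HasEnoughRootsOfUnity.exists_primitiveRoot k (2 ^ N - 1)
  have hl : l ≠ 0 := hprim.ne_zero hm.ne'
  have hper : ∀ s, ff^[s] '' YY l = YY l ↔ l ^ 2 ^ s = l := by
    intro s
    rw [image_Y hl]
    constructor
    · exact fun h => YY_inj h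
    · intro h
      rw [h]
  have hpow : ∀ s, l ^ 2 ^ s = l ↔ 2 ^ N - 1 ∣ 2 ^ s - 1 := by
    intro s
    rw [← hprim.pow_eq_one_iff_dvd]
    have e : 2 ^ s = (2 ^ s - 1) + 1 := by
      have := Nat.one_le_two_pow (n := s)
      omega
    constructor
    · intro h
      rw [e, pow_succ] at h
      exact mul_right_cancel₀ hl (by rw [h, one_mul])
    · intro h
      rw [e, pow_succ, h, one_mul]
  have hN : l ^ 2 ^ N = l := (hpow _).2 dvd_rfl
  refine ⟨YY l, YY_sub l, closed_YY hl, irred_YY l, ⟨N, hN0, (hper _).2 hN⟩,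
    ⟨N, hN0, (hper _).2 hN, 2 ^ N, 3 ^ N, fdd_Y hl hN, fdd_X _, ?_⟩, ?_, pt0_mem l⟩
  · exact pow_lt_pow_left₀ (by norm_num) (by norm_num) (by omega)
  · have hne : {s | 0 < s ∧ ff^[s] '' YY l = YY l}.Nonempty := ⟨N, hN0, (hper _).2 hN⟩
    obtain ⟨h1, h2⟩ := Nat.sInf_mem hne
    rw [hper, hpow] at h2
    change sInf {s | 0 < s ∧ ff^[s] '' YY l = YY l} = N
    refine le_antisymm (Nat.sInf_le ⟨hN0, (hper _).2 hN⟩) ?_
    by_contra hcon
    push Not at hcon
    set s := sInf {s | 0 < s ∧ ff^[s] '' YY l = YY l} with hs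
    have h3 : 0 < 2 ^ s - 1 := by
      have : 2 ^ 1 ≤ 2 ^ s := Nat.pow_le_pow_right two_pos (by omega)
      omega
    have h4 := Nat.le_of_dvd h3 h2
    have h5 : 2 ^ s < 2 ^ N := Nat.pow_lt_pow_right (by norm_num) hcon
    omega

/-- **Negative answer to Q1** over every field of characteristic zero, in particular over every
number field: one variety, one endomorphism and one rational fixed point `x₀` serve for all `d ≥ 1`
and all periods. -/
theorem result : ∀ (K : Type) [Field K] [CharZero K],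
    ∃ (ι : Type) (_ : Fintype ι) (X : Set (PSpace (AlgebraicClosure K) ι))
      (f : PSpace (AlgebraicClosure K) ι → PSpace (AlgebraicClosure K) ι)
      (x₀ : PSpace (AlgebraicClosure K) ι),
      IsVarietyOver K X ∧ IsSurjectiveEndomorphism K X f ∧ IsFirstDynamicalDegree X f 3 ∧
      x₀ ∈ X ∧ f x₀ = x₀ ∧ pointField K x₀ = ⊥ ∧
      ∀ N : ℕ, 1 ≤ N → ∃ Y ⊆ X, IsZariskiClosed Y ∧ IsIrred Y ∧ IsPeriodic f Y ∧
        IsSDD X f Y ∧ period f Y = N ∧ x₀ ∈ Y := by
  intro K _ _
  have : CharZero (AlgebraicClosure K) :=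
    charZero_of_injective_algebraMap (algebraMap K (AlgebraicClosure K)).injective
  obtain ⟨h1, h2, h3, h4, h5, h6, -⟩ := main K (AlgebraicClosure K)
  exact ⟨I8, inferInstance, XX (AlgebraicClosure K), ff, pt0 (AlgebraicClosure K), h1, h2, h3, h4,
    h5, h6, fun N hN => exists_period N hN⟩

end Pool.Agent.Results.MP_3de96c_nt.EveryPeriod
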